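import Pool.Agent.V11223.AS.Time

/-!
# An explicit set that forces small admissible subsets

Let `p` be the least prime with `p ≥ 3` and `p ^ 3 ≥ 2 n`; write numbers in base `p`. The set `S`
consists of the `s` in `[2n, 4n)` with digits `s₀`, `s₁` and `s₂ = ⌊s / p²⌋` such that, for some
carries `c, d` in `{0, 1}`, `s₂ - d = s₀² + (s₁ - c)²` modulo `p`. If the digits of `a` and `b`
add up, modulo `p`, to a point of the paraboloid `z = x² + y²`, then `a + b` is in `S`. So the
digits of an admissible set form an independent set of the sum graph of the paraboloid on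
`(ℤ/p)³`. Two vertices of this graph have at most `p` common neighbours, and by double counting
an independent set has at most `p² + p` vertices.
-/

namespace Pool.Agent.Results.MP_d065a3_lc.ExplicitSumSet

open Pool.Agent.NPC Pool.Agent.V11223.AS

theorem bound_one {n : ℕ} (hn : 2 ≤ n) :
    ((thePrime n : ℝ)) ^ 2 ≤ 26 * (n : ℝ) ^ (2 / 3 : ℝ) := by
  obtain ⟨_, _, _, h⟩ := thePrime_spec hn
  set p : ℝ := (thePrime n : ℝ) with hp
  have hp0 : 0 ≤ p := by positivity
  have h1 : p ^ 3 ≤ 128 * (n : ℝ) := by rw [hp]; exact_mod_cast h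
  have hn0 : (0 : ℝ) ≤ n := by positivity
  have h2 : p ^ 2 = (p ^ 3) ^ (2 / 3 : ℝ) := by
    rw [← Real.rpow_natCast p 3, ← Real.rpow_mul hp0, ← Real.rpow_natCast p 2]
    norm_num
  have h3 : (p ^ 3) ^ (2 / 3 : ℝ) ≤ (128 * (n : ℝ)) ^ (2 / 3 : ℝ) :=
    Real.rpow_le_rpow (by positivity) h1 (by norm_num)
  have h4 : (128 : ℝ) ^ (2 / 3 : ℝ) ≤ 26 := by
    have h5 : (128 : ℝ) ^ (2 / 3 : ℝ) = ((128 : ℝ) ^ (2 : ℝ)) ^ (1 / 3 : ℝ) := by
      rw [← Real.rpow_mul (by norm_num)]; norm_num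
    have h6 : (26 : ℝ) = ((26 : ℝ) ^ (3 : ℝ)) ^ (1 / 3 : ℝ) := by
      rw [← Real.rpow_mul (by norm_num)]; norm_num
    rw [h5, h6]
    refine Real.rpow_le_rpow (by positivity) ?_ (by norm_num)
    norm_num
  rw [h2]
  refine h3.trans ?_
  rw [Real.mul_rpow (by norm_num) hn0]
  exact mul_le_mul_of_nonneg_right h4 (by positivity)

theorem half_le {n : ℕ} (hn : 2 ≤ n) : (1 / 2 : ℝ) ≤ min 1 ((Real.log n) ^ (2 / 3 : ℝ)) := by
  refine le_min (by norm_num) ?_
  have h1 : (0.69 : ℝ) < Real.log n := by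
    have h2 : Real.log 2 ≤ Real.log n :=
      Real.log_le_log (by norm_num) (by exact_mod_cast hn)
    have := Real.log_two_gt_d9
    linarith
  have h3 : (0.69 : ℝ) ^ (2 / 3 : ℝ) ≤ (Real.log n) ^ (2 / 3 : ℝ) :=
    Real.rpow_le_rpow (by norm_num) h1.le (by norm_num)
  have h4 : (0.69 : ℝ) ^ (1 : ℝ) ≤ (0.69 : ℝ) ^ (2 / 3 : ℝ) :=
    Real.rpow_le_rpow_of_exponent_ge (by norm_num) (by norm_num) (by norm_num)
  rw [Real.rpow_one] at h4
  linarith

/-- There are a constant `C` and an algorithm `f`, computed by a Turing machine in polynomial time,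
that on input `n` (in unary) outputs a list `L` without repetitions of numbers in `[2n, 4n)`, such
that `L` and all sets `A ⊆ [n, 2n)` in which no two different elements have their sum in `L` have at
most `C n ^ (2/3) min (1, (ln n) ^ (2/3))` elements. -/
theorem result : ∃ (C : ℝ) (f : List Unit → List ℕ),
    Nonempty (Turing.TM2ComputableInPolyTime (bits : List Unit → List Bool)
      (bits : List ℕ → List Bool) f) ∧
    ∀ n : ℕ, 2 ≤ n → ∀ L : List ℕ, f (List.replicate n ()) = L →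
      L.Nodup ∧ (∀ s ∈ L, 2 * n ≤ s ∧ s < 4 * n) ∧
      (L.length : ℝ) ≤ C * ((n : ℝ) ^ (2 / 3 : ℝ) * min 1 (Real.log n ^ (2 / 3 : ℝ))) ∧
      ∀ A : Finset ℕ, A ⊆ Finset.Ico n (2 * n) → (∀ a ∈ A, ∀ b ∈ A, a ≠ b → a + b ∉ L) →
        (A.card : ℝ) ≤ C * ((n : ℝ) ^ (2 / 3 : ℝ) * min 1 (Real.log n ^ (2 / 3 : ℝ))) := by
  refine ⟨416, fun u => theSet u.length,
    H532.Poly.toTM (V11223AS.theSet_poly (UPoly.length Poly.id)), ?_⟩
  intro n hn L hL
  have hL' : theSet n = L := by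
    have h : theSet (List.replicate n ()).length = L := hL
    rwa [List.length_replicate] at h
  clear hL
  subst hL'
  have h1 := bound_one hn
  have h2 := half_le hn
  have hn0 : (0 : ℝ) ≤ (n : ℝ) ^ (2 / 3 : ℝ) := by positivity
  have key : 208 * (n : ℝ) ^ (2 / 3 : ℝ) ≤
      416 * ((n : ℝ) ^ (2 / 3 : ℝ) * min 1 (Real.log n ^ (2 / 3 : ℝ))) := by
    nlinarith
  refine ⟨nodup_theSet n, fun s hs => ?_, ?_, fun A hA hadm => ?_⟩
  · rw [mem_theSet] at hs
    exact ⟨hs.2.1, hs.1⟩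
  · refine le_trans ?_ key
    have h3 : ((theSet n).length : ℝ) ≤ 8 * (thePrime n : ℝ) ^ 2 := by
      exact_mod_cast length_theSet hn
    linarith
  · refine le_trans ?_ key
    have h3 : (A.card : ℝ) ≤ (thePrime n : ℝ) ^ 2 + thePrime n := by
      exact_mod_cast card_admissible hn A hA hadm
    have h4 : (1 : ℝ) ≤ thePrime n := by
      have := (thePrime_spec hn).2.1
      exact_mod_cast (by omega : 1 ≤ thePrime n)
    nlinarith

end Pool.Agent.Results.MP_d065a3_lc.ExplicitSumSet
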